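import Mathlib
import Pool.Agent.H576.CE.Stm
import Pool.Agent.H800.CTDrop

/-!
# Covering in stages with interrupts (project CE of helper576, MP_10effd_pr)

`ce_mode`: a modification of `J_cycle` and `J_mode` of the library file `Val.lean`, with the potential of
`Pool/Agent/H800/CTDrop.lean`.
-/

set_option autoImplicit false
set_option linter.unusedSectionVars false

namespace Pool.Agent.H274.CE

open Finset Pool.Agent.TH112.BW Pool.Agent.H576.CT Pool.Agent.H576.CE Pool.Agent.H800

variable {V : Type} [Fintype V] [DecidableEq V] (G : SimpleGraph V) [DecidableRel G.Adj]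

/-- the potential of one stage with interrupts -/
noncomputable def Pt (h : V → ℝ) (q : V → V → ℝ) (c : ℝ) (T : V → ℝ) (c' : ℝ) (A : Finset V) (x : V) : ℝ :=
  ctPt h q c A x + (∑ v ∈ A, T v + c')

theorem Pt_nonneg (h : V → ℝ) (q : V → V → ℝ) (c : ℝ) (T : V → ℝ) (c' : ℝ) (A : Finset V) (x : V)
    (hpos : ∀ x, 0 ≤ h x) (hq : ∀ v ∈ A, ∀ x, q v x ≤ 1) (hc : 0 ≤ c) (hT : ∀ v ∈ A, 0 ≤ T v)
    (hc' : 0 ≤ c') : 0 ≤ Pt h q c T c' A x := by
  unfold Pt
  have h1 := ctPt_nonneg h q c A x hpos hq hc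
  have h2 := Finset.sum_nonneg hT
  linarith

theorem lap_Pt (w : V → ℝ) (h : V → ℝ) (q : V → V → ℝ) (c : ℝ) (T : V → ℝ) (c' : ℝ) (A : Finset V) (x : V) :
    lap G w (Pt h q c T c' A) x = lap G w h x - c * ∑ v ∈ A, lap G w (q v) x := by
  rw [← lap_ctPt]
  unfold lap Pt
  exact Finset.sum_congr rfl fun y _ => by ring

theorem Pt_erase (h : V → ℝ) (q : V → V → ℝ) (c : ℝ) (T : V → ℝ) (c' : ℝ) (A : Finset V) (y : V) (hy : y ∈ A)
    (hqy : q y y = 1) : T y + Pt h q c T c' (A.erase y) y = Pt h q c T c' A y := by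
  unfold Pt
  rw [ctPt_erase h q c A y hy hqy, ← Finset.add_sum_erase A T hy]
  ring

variable {G}
variable {ε : ℝ} (hε0 : 0 ≤ ε) (hε1 : ε ≤ 1) (hN : ∀ x, (G.neighborFinset x).Nonempty)

include hε0 hε1 in
theorem J_target (D : V → Finset V → Prop) (k : ℕ) (x : V) (S : Finset V) (h : D x S) :
    J G ε hN D k x S = 0 := by
  cases k with
  | zero => exact J_zero hN D x S
  | succ k => exact J_succ_pos hN D k x S h

include hε0 hε1 in
/-- one stage -/
theorem stage (w : V → ℝ) (hw : Adm G ε w) (o : V) (h : V → ℝ) (h0 : h o = 0) (hpos : ∀ x, 0 ≤ h x)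
    (hlap : ∀ x, x ≠ o → lap G w h x = dg G w x)
    (hkac : w o * (∑ y ∈ G.neighborFinset o, w y * h y) = tot G w - w o * dg G w o)
    (htot : 0 ≤ tot G w)
    (B A0 : Finset V) (q : V → V → ℝ) (hq0 : ∀ v ∈ A0, q v o = 0) (hq1 : ∀ v ∈ A0, q v v = 1)
    (hqle : ∀ v ∈ A0, ∀ x, q v x ≤ 1) (hqlap : ∀ v ∈ A0, ∀ x, x ≠ o → x ≠ v → lap G w (q v) x = 0)
    (g : ℝ) (hg : 0 ≤ g) (hgI : ∀ v ∈ A0, tot G w ≤ g * (w o * (∑ y ∈ G.neighborFinset o, w y * q v y)))
    (T : V → ℝ) (hT : ∀ v ∈ A0, 0 ≤ T v) (Cov : V → Finset V)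
    (hsub : ∀ v ∈ A0, ∀ k S, v ∈ S → J G ε hN (Dt v (S ∪ Cov v)) k v S ≤ T v) (S0 : Finset V)
    (K0 : ℕ) (hK0 : 1 ≤ K0) (c' : ℝ) (hc' : 0 ≤ c')
    (hnext : ∀ (k : ℕ) (A S : Finset V), A ⊆ A0 → A.card < K0 → o ∈ S →
      insert o S0 ∪ (B \ A) ∪ (B \ A).biUnion Cov ⊆ S →
      J G ε hN (Dt o (insert o S0 ∪ B ∪ B.biUnion Cov)) k o S ≤ c' + ∑ v ∈ A, T v) (k : ℕ) :
    ∀ (A S : Finset V) (x : V), A ⊆ A0 → x ∈ S → x ∉ A →
      insert o S0 ∪ (B \ A) ∪ (B \ A).biUnion Cov ⊆ S →
      J G ε hN (Dt o (insert o S0 ∪ B ∪ B.biUnion Cov)) k x S ≤ Pt h q (g / K0) T c' A x := by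
  have hKR : (0 : ℝ) < K0 := by exact_mod_cast hK0
  have hc0 : 0 ≤ g / K0 := div_nonneg hg hKR.le
  have hnn : ∀ (A : Finset V) (x : V), A ⊆ A0 → 0 ≤ Pt h q (g / K0) T c' A x := fun A x hA =>
    Pt_nonneg h q (g / K0) T c' A x hpos (fun v hv => hqle v (hA hv)) hc0 (fun v hv => hT v (hA hv)) hc'
  induction k with
  | zero =>
    intro A S x hA _ _ _
    rw [J_zero]
    exact hnn A x hA
  | succ k ih =>
    -- successors
    have hsucc : ∀ (A S : Finset V) (y : V), A ⊆ A0 →
        insert o S0 ∪ (B \ A) ∪ (B \ A).biUnion Cov ⊆ S →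
        J G ε hN (Dt o (insert o S0 ∪ B ∪ B.biUnion Cov)) k y (insert y S) ≤ Pt h q (g / K0) T c' A y := by
      intro A S y hA hS
      have hS' : insert o S0 ∪ (B \ A) ∪ (B \ A).biUnion Cov ⊆ insert y S := hS.trans (Finset.subset_insert _ _)
      by_cases hy : y ∈ A
      · have hyA0 := hA hy
        have hc := J_comp hε0 hε1 hN (Dt o (insert o S0 ∪ B ∪ B.biUnion Cov))
          (Dt y (insert y S ∪ Cov y)) k (Pt h q (g / K0) T c' (A.erase y) y)
          (hnn _ _ ((Finset.erase_subset _ _).trans hA))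
          (by
            rintro x' S' ⟨rfl, hsubS⟩ hx'
            refine ih (A.erase x') S' x' ((Finset.erase_subset _ _).trans hA) hx'
              (Finset.notMem_erase _ _) ?_
            intro z hz
            rw [Finset.mem_union, Finset.mem_union] at hz
            rcases hz with (hz | hz) | hz
            · exact hsubS (Finset.mem_union_left _ (hS' (Finset.mem_union_left _ (Finset.mem_union_left _ hz))))
            · rw [Finset.mem_sdiff, Finset.mem_erase, not_and] at hz
              by_cases hzx : z = x'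
              · rw [hzx]; exact hx'
              · have : z ∉ A := hz.2 hzx
                exact hsubS (Finset.mem_union_left _ (hS' (Finset.mem_union_left _
                  (Finset.mem_union_right _ (Finset.mem_sdiff.mpr ⟨hz.1, this⟩)))))
            · rw [Finset.mem_biUnion] at hz
              obtain ⟨a, ha, hza⟩ := hz
              rw [Finset.mem_sdiff, Finset.mem_erase, not_and] at ha
              by_cases hax : a = x'
              · rw [hax] at hza
                exact hsubS (Finset.mem_union_right _ hza)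
              · have : a ∉ A := ha.2 hax
                exact hsubS (Finset.mem_union_left _ (hS' (Finset.mem_union_right _
                  (Finset.mem_biUnion.mpr ⟨a, Finset.mem_sdiff.mpr ⟨ha.1, this⟩, hza⟩)))))
          y (insert y S) (Finset.mem_insert_self _ _)
        have hT' := hsub y hyA0 k (insert y S) (Finset.mem_insert_self _ _)
        rw [← Pt_erase h q (g / K0) T c' A y hy (hq1 y hyA0)]
        linarith
      · exact ih A (insert y S) y hA (Finset.mem_insert_self _ _) hy hS'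
    intro A S x hA hx hxA hS
    by_cases hxo : x = o
    · subst hxo
      rcases Nat.lt_or_ge A.card K0 with hlt | hcard
      · refine (hnext (k + 1) A S hA hlt hx hS).trans ?_
        unfold Pt
        have := ctPt_nonneg h q (g / K0) A x hpos (fun v hv => hqle v (hA hv)) hc0
        linarith
      · have hcR : (K0 : ℝ) ≤ A.card := by exact_mod_cast hcard
        refine J_step hε0 hε1 hN w hw _ k x S (Pt h q (g / K0) T c' A) (hnn A x hA)
          (fun y _ => hsucc A S y hA hS) ?_
        rw [lap_Pt]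
        have hwo := hw.1 x
        have e1 : lap G w h x = - ∑ y ∈ G.neighborFinset x, w y * h y := by rw [lap_eq, h0]; ring
        have e2 : ∀ v ∈ A, lap G w (q v) x = - ∑ y ∈ G.neighborFinset x, w y * q v y := by
          intro v hv
          rw [lap_eq, hq0 v (hA hv)]; ring
        rw [e1, Finset.sum_congr rfl e2, Finset.sum_neg_distrib]
        set Q := ∑ v ∈ A, ∑ y ∈ G.neighborFinset x, w y * q v y with hQ
        have e3 : (A.card : ℝ) * tot G w ≤ g * (w x * Q) := by
          rw [hQ, Finset.mul_sum, Finset.mul_sum]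
          calc (A.card : ℝ) * tot G w = ∑ v ∈ A, tot G w := by
                rw [Finset.sum_const, nsmul_eq_mul]
            _ ≤ ∑ v ∈ A, g * (w x * ∑ y ∈ G.neighborFinset x, w y * q v y) :=
                Finset.sum_le_sum fun v hv => hgI v (hA hv)
        have e4 : tot G w ≤ w x * (g / K0 * Q) := by
          have : w x * (g / K0 * Q) = (g * (w x * Q)) / K0 := by ring
          rw [this, le_div_iff₀ hKR]
          have := mul_le_mul_of_nonneg_right hcR htot
          linarith
        have e5 : w x * dg G w x ≤ w x * (-∑ y ∈ G.neighborFinset x, w y * h y - g / K0 * -Q) := by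
          have : w x * (-∑ y ∈ G.neighborFinset x, w y * h y - g / K0 * -Q)
              = - (w x * ∑ y ∈ G.neighborFinset x, w y * h y) + w x * (g / K0 * Q) := by ring
          rw [this, hkac]
          linarith
        exact le_of_mul_le_mul_left e5 hwo
    · refine J_step hε0 hε1 hN w hw _ k x S (Pt h q (g / K0) T c' A) (hnn A x hA)
          (fun y _ => hsucc A S y hA hS) ?_
      rw [lap_Pt, hlap x hxo]
      have : ∑ v ∈ A, lap G w (q v) x = 0 := Finset.sum_eq_zero fun v hv =>
        hqlap v (hA hv) x hxo (fun h => hxA (h ▸ hv))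
      rw [this]
      simp

theorem ce_mode : S_MODE := by
  intro V _ _ G _ ε hε0 hε1 hN hG o p R hR B hoB hp E N0 hE hBN Tt hTt hnet T hT Cov hsub k S hpS
  set Y := insert o S ∪ B ∪ B.biUnion Cov with hY
  have hER : 0 ≤ (E : ℝ) * R := mul_nonneg (Nat.cast_nonneg _) hR
  have hcs : ∀ s, 0 ≤ (E : ℝ) * R * ∑ i ∈ Ico s (N0 + 1), Tt i := fun s =>
    mul_nonneg hER (Finset.sum_nonneg fun i _ => hTt i)
  -- the claim
  have claim : ∀ (d s : ℕ), s + d = N0 + 1 → ∀ (k : ℕ) (A S' : Finset V), A ⊆ B → A.card * E ^ s ≤ N0 →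
      o ∈ S' → insert o S ∪ (B \ A) ∪ (B \ A).biUnion Cov ⊆ S' →
      J G ε hN (Dt o Y) k o S' ≤ (E : ℝ) * R * ∑ i ∈ Ico s (N0 + 1), Tt i + ∑ v ∈ A, T v := by
    intro d
    induction d with
    | zero =>
      intro s hs k A S' hA hcard ho' hS'
      have hs' : s = N0 + 1 := by omega
      have hE' : N0 < E ^ (N0 + 1) :=
        (Nat.lt_succ_self N0).trans_le ((Nat.lt_pow_self (by omega)).le)
      have hA0 : A = ∅ := by
        rw [← Finset.card_eq_zero]
        by_contra hne
        have h1 : 1 ≤ A.card := Nat.one_le_iff_ne_zero.2 hne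
        have h2 : E ^ (N0 + 1) ≤ A.card * E ^ (N0 + 1) := Nat.le_mul_of_pos_left _ h1
        rw [hs'] at hcard
        omega
      subst hA0
      rw [J_target hε0 hε1 hN (Dt o Y) k o S' ⟨rfl, by rw [hY]; simpa using hS'⟩]
      have := hcs s
      simpa using this
    | succ d ih =>
      intro s hs k A S' hA hcard ho' hS'
      rcases Finset.eq_empty_or_nonempty A with hA0 | hAne
      · subst hA0
        rw [J_target hε0 hε1 hN (Dt o Y) k o S' ⟨rfl, by rw [hY]; simpa using hS'⟩]
        have := hcs s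
        simpa using this
      · obtain ⟨w, hw, hres, htotle⟩ := hnet s A hA hAne hcard
        have hoA : o ∉ A := fun h => hoB (hA h)
        obtain ⟨h, h0, hpos, hlap, hflow, hkac⟩ := exists_hit G hG w hw.1 o
        have htot : 0 ≤ tot G w := Finset.sum_nonneg fun x _ => mul_nonneg (hw.1 x).le (dg_nonneg G w hw.1 x)
        have hq : ∀ v : V, ∃ q : V → ℝ, v ∈ A → (q o = 0 ∧ q v = 1 ∧ (∀ x, 0 ≤ q x) ∧ (∀ x, q x ≤ 1) ∧
            (∀ x, x ≠ o → x ≠ v → lap G w q x = 0) ∧
            0 ≤ w o * (∑ y ∈ G.neighborFinset o, w y * q y) ∧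
            FlowLe G w q (w o * (∑ y ∈ G.neighborFinset o, w y * q y))) := by
          intro v
          by_cases hv : v ∈ A
          · obtain ⟨q, hq⟩ := exists_prob G hG w hw.1 o v (fun h => hoA (h ▸ hv))
            exact ⟨q, fun _ => hq⟩
          · exact ⟨fun _ => 0, fun h => absurd h hv⟩
        choose q hq using hq
        set g := tot G w * R with hg
        have hg0 : 0 ≤ g := mul_nonneg htot hR
        have hgI : ∀ v ∈ A, tot G w ≤ g * (w o * (∑ y ∈ G.neighborFinset o, w y * q v y)) := by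
          intro v hv
          obtain ⟨a1, a2, a3, a4, a5, a6, a7⟩ := hq v hv
          have := (hres v hv (q v) _ a6 a7).1
          rw [a1, a2] at this
          have h1 : 1 ≤ R * (w o * (∑ y ∈ G.neighborFinset o, w y * q v y)) := by linarith
          calc tot G w = tot G w * 1 := by ring
            _ ≤ tot G w * (R * (w o * (∑ y ∈ G.neighborFinset o, w y * q v y))) :=
                mul_le_mul_of_nonneg_left h1 htot
            _ = _ := by rw [hg]; ring
        have hEs : 0 < E ^ (s + 1) := by positivity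
        obtain ⟨K0, hK0⟩ : ∃ K0 : ℕ, K0 = N0 / E ^ (s + 1) + 1 := ⟨_, rfl⟩
        have hK1 : 1 ≤ K0 := by
          rw [hK0]
          exact Nat.succ_le_succ (Nat.zero_le _)
        have hKR : (0 : ℝ) < K0 := by exact_mod_cast hK1
        have hst := stage hε0 hε1 hN w hw o h h0 hpos hlap hkac htot B A q (fun v hv => (hq v hv).1)
          (fun v hv => (hq v hv).2.1) (fun v hv => (hq v hv).2.2.2.1) (fun v hv => (hq v hv).2.2.2.2.1)
          g hg0 hgI T (fun v hv => hT v (hA hv)) Cov (fun v hv => hsub v (hA hv)) S K0 hK1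
          ((E : ℝ) * R * ∑ i ∈ Ico (s + 1) (N0 + 1), Tt i) (hcs (s + 1))
          (by
            intro k' A' S'' hA' hlt ho'' hS''
            refine ih (s + 1) (by omega) k' A' S'' (hA'.trans hA) ?_ ho'' hS''
            have h1 : A'.card ≤ N0 / E ^ (s + 1) := by
              rw [hK0] at hlt
              exact Nat.lt_succ_iff.1 hlt
            exact (Nat.mul_le_mul_right _ h1).trans (Nat.div_mul_le_self _ _))
          k A S' o (Finset.Subset.refl _) ho' hoA hS'
        refine hst.trans ?_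
        unfold Pt ctPt
        have hz : ∑ v ∈ A, q v o = 0 := Finset.sum_eq_zero fun v hv => (hq v hv).1
        rw [hz, h0, Finset.sum_eq_sum_Ico_succ_bot (show s < N0 + 1 by omega)]
        have hcardle : A.card ≤ E * K0 := by
          have h1 : N0 < K0 * E ^ (s + 1) := by
            rw [hK0, mul_comm]
            exact Nat.lt_mul_div_succ N0 hEs
          have h2 : A.card * E ^ s ≤ (E * K0) * E ^ s := by
            calc A.card * E ^ s ≤ N0 := hcard
              _ ≤ K0 * E ^ (s + 1) := h1.le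
              _ = (E * K0) * E ^ s := by ring
          exact Nat.le_of_mul_le_mul_right h2 (by positivity)
        have hcR : (A.card : ℝ) ≤ E * K0 := by exact_mod_cast hcardle
        have h3 : g / K0 * A.card ≤ E * R * Tt s := by
          calc g / K0 * A.card ≤ g / K0 * (E * K0) :=
                mul_le_mul_of_nonneg_left hcR (div_nonneg hg0 hKR.le)
            _ = E * R * tot G w := by
                rw [hg]
                field_simp
            _ ≤ _ := mul_le_mul_of_nonneg_left htotle hER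
        have h4 : 0 + g / K0 * ((A.card : ℝ) - 0) + (∑ v ∈ A, T v +
            (E : ℝ) * R * ∑ i ∈ Ico (s + 1) (N0 + 1), Tt i) =
            g / K0 * A.card + (∑ v ∈ A, T v + (E : ℝ) * R * ∑ i ∈ Ico (s + 1) (N0 + 1), Tt i) := by ring
        rw [h4, mul_add]
        linarith
  have hR0 : 0 ≤ R * Tt 0 := mul_nonneg hR (hTt 0)
  -- the network for the port
  have hport : p ≠ o → ∃ w : V → ℝ, Adm G ε w ∧ Res G w p o R ∧ tot G w ≤ Tt 0 := by
    intro hpo
    have hpB : p ∈ B := hp.resolve_left hpo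
    have hB1 : 1 ≤ B.card := Finset.card_pos.2 ⟨p, hpB⟩
    obtain ⟨w, hw, hres, ht⟩ := hnet 0 {p} (Finset.singleton_subset_iff.2 hpB)
      (Finset.singleton_nonempty p) (by rw [Finset.card_singleton, pow_zero]; omega)
    exact ⟨w, hw, hres p (Finset.mem_singleton_self p), ht⟩
  -- stage 3: from o with Y visited, go to p
  have st3 : ∀ S', o ∈ S' → Y ⊆ S' → J G ε hN (Dt p Y) k o S' ≤ R * Tt 0 := by
    intro S' ho' hYS
    by_cases hpo : p = o
    · rw [J_target hε0 hε1 hN (Dt p Y) k o S' ⟨hpo.symm, hYS⟩]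
      exact hR0
    · obtain ⟨w, hw, hres, ht⟩ := hport hpo
      have htot : 0 ≤ tot G w := Finset.sum_nonneg fun x _ => mul_nonneg (hw.1 x).le (dg_nonneg G w hw.1 x)
      obtain ⟨h', h0', hpos', hlap', hflow', -⟩ := exists_hit G hG w hw.1 p
      have h1 := J_hit hε0 hε1 hN w hw p h' h0' hpos' hlap' Y k o S' ho' hYS
      have h2 : J G ε hN (Dt p Y) k o S' ≤ J G ε hN (Dt p (insert p Y)) k o S' :=
        J_anti hε0 hε1 hN _ _ (fun x S hx => ⟨hx.1, (Finset.subset_insert _ _).trans hx.2⟩) k o S'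
      have h3 := (hres h' (tot G w) htot hflow').2
      rw [h0'] at h3
      have h4 := mul_le_mul_of_nonneg_left ht hR
      linarith
  -- stage 1
  have st1 : J G ε hN (Dt o (insert o S)) k p S ≤ R * Tt 0 := by
    by_cases hpo : p = o
    · rw [J_target hε0 hε1 hN (Dt o (insert o S)) k p S
        ⟨hpo, Finset.insert_subset (hpo ▸ hpS) (Finset.Subset.refl _)⟩]
      exact hR0
    · obtain ⟨w, hw, hres, ht⟩ := hport hpo
      have htot : 0 ≤ tot G w := Finset.sum_nonneg fun x _ => mul_nonneg (hw.1 x).le (dg_nonneg G w hw.1 x)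
      obtain ⟨h, h0, hpos, hlap, hflow, -⟩ := exists_hit G hG w hw.1 o
      have h1 := J_hit hε0 hε1 hN w hw o h h0 hpos hlap S k p S hpS (Finset.Subset.refl _)
      have h2 := (hres h (tot G w) htot hflow).1
      rw [h0] at h2
      have h4 := mul_le_mul_of_nonneg_left ht hR
      linarith
  -- stage 2
  have hc0 := hcs 0
  have hTn := Finset.sum_nonneg hT
  have st2 : ∀ S', o ∈ S' → insert o S ⊆ S' → J G ε hN (Dt p Y) k o S'
      ≤ ((E : ℝ) * R * ∑ i ∈ Ico 0 (N0 + 1), Tt i + ∑ v ∈ B, T v) + R * Tt 0 := by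
    intro S' ho' hS'
    have hc := J_comp hε0 hε1 hN (Dt p Y) (Dt o Y) k (R * Tt 0) hR0
      (by rintro x S'' ⟨rfl, hYS⟩ hx; exact st3 S'' hx hYS) o S' ho'
    have hcl := claim (N0 + 1) 0 (by omega) k B S' (Finset.Subset.refl _)
      (by rw [pow_zero, mul_one]; exact hBN) ho' (by simpa using hS')
    linarith
  have hc := J_comp hε0 hε1 hN (Dt p Y) (Dt o (insert o S)) k
    (((E : ℝ) * R * ∑ i ∈ Ico 0 (N0 + 1), Tt i + ∑ v ∈ B, T v) + R * Tt 0) (by linarith)
    (by rintro x S' ⟨rfl, hS'⟩ hx; exact st2 S' hx hS') p S hpS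
  rw [Finset.range_eq_Ico]
  linarith

end Pool.Agent.H274.CE
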